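import Pool.Agent.H12.QN.Stmts
import Pool.Agent.H93.BT.Divb

/-! Board `qnb`, row CNT: counting (h,u) with h u = m. -/

namespace Pool.QN

open Finset

/-- 2^(clog 2 K) <= 2 K -/
theorem two_pow_clog_le (K : ℕ) (hK : 1 ≤ K) : (2:ℕ) ^ Nat.clog 2 K ≤ 2 * K := by
  rcases Nat.lt_or_ge 1 K with h | h
  · have h1 := Nat.pow_pred_clog_lt_self (b := 2) (by norm_num) h
    have h2 : 0 < Nat.clog 2 K := Nat.clog_pos (by norm_num) h
    have h3 : (2:ℕ) ^ Nat.clog 2 K = 2 * 2 ^ (Nat.clog 2 K).pred := by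
      rw [← pow_succ']
      congr 1
      rw [Nat.pred_eq_sub_one]
      omega
    omega
  · have : K = 1 := le_antisymm h hK
    subst this
    simp

/-- clog 2 K + 1 <= C K^d -/
theorem clog_small (δ : ℝ) (hδ : 0 < δ) : ∃ C : ℝ, 1 ≤ C ∧ ∀ K : ℕ, 1 ≤ K →
    ((Nat.clog 2 K : ℝ) + 1) ≤ C * (K:ℝ) ^ δ := by
  obtain ⟨C, hC1, hC⟩ := Pool.Agent.H93.BT.local_small δ hδ
  refine ⟨C * 2 ^ δ, ?_, fun K hK => ?_⟩
  · have : (1:ℝ) ≤ 2 ^ δ := Real.one_le_rpow (by norm_num) hδ.le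
    nlinarith
  · have hK1 : (1:ℝ) ≤ K := by exact_mod_cast hK
    have h1 := hC (Nat.clog 2 K)
    have h2 : (2:ℝ) ^ (δ * (Nat.clog 2 K : ℝ)) = ((2:ℝ) ^ (Nat.clog 2 K)) ^ δ := by
      rw [mul_comm, Real.rpow_mul (by norm_num), Real.rpow_natCast]
    have h3 : ((2:ℝ) ^ (Nat.clog 2 K)) ≤ 2 * K := by exact_mod_cast two_pow_clog_le K hK
    have h4 : ((2:ℝ) ^ (Nat.clog 2 K)) ^ δ ≤ (2 * K) ^ δ :=
      Real.rpow_le_rpow (by positivity) h3 hδ.le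
    rw [h2] at h1
    calc _ ≤ C * ((2:ℝ) ^ (Nat.clog 2 K)) ^ δ := h1
      _ ≤ C * (2 * K) ^ δ := by gcongr
      _ = C * 2 ^ δ * (K:ℝ) ^ δ := by
          rw [Real.mul_rpow (by norm_num) (by linarith)]; ring

/-- number of (h,u), h >= 1, with h u = m -/
theorem fiber_card_le (H : Finset ℕ) (U : Finset ℤ) (hH : ∀ h ∈ H, 1 ≤ h) (m : ℤ) (hm : m ≠ 0) :
    ((H ×ˢ U).filter (fun p : ℕ × ℤ => (p.1 : ℤ) * p.2 = m)).card ≤ (m.natAbs.divisors).card := by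
  apply card_le_card_of_injOn (fun p : ℕ × ℤ => p.1)
  · intro p hp
    simp only [coe_filter, mem_product, Set.mem_ofPred_eq] at hp
    simp only [mem_coe, Nat.mem_divisors]
    refine ⟨?_, Int.natAbs_ne_zero.2 hm⟩
    rw [← hp.2, Int.natAbs_mul, Int.natAbs_natCast]
    exact Dvd.intro _ rfl
  · intro p hp p' hp' he
    simp only [coe_filter, mem_product, Set.mem_ofPred_eq] at hp hp'
    have he' : p.1 = p'.1 := he
    have h1 := hH _ hp.1.1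
    have : (p.1 : ℤ) * p.2 = (p.1 : ℤ) * p'.2 := by
      rw [hp.2, ← hp'.2, he']
    have h0 : (p.1 : ℤ) ≠ 0 := by
      have : (1:ℤ) ≤ p.1 := by exact_mod_cast h1
      omega
    exact Prod.ext he' (mul_left_cancel₀ h0 this)

/-- off-diagonal pairs for fixed h, j -/
theorem offdiag_le (J j : ℕ) (hj : j ≤ J) (f : ℤ → ℝ) (hf : ∀ m, 0 ≤ f m) :
    (∑ k ∈ range (2 ^ j), ∑ l ∈ range (2 ^ j), f ((k:ℤ) - l)) / 2 ^ j ≤
      f 0 + ∑ u ∈ (Ioo (-(2:ℤ) ^ J) (2 ^ J)).erase 0, f u := by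
  rw [div_le_iff₀ (by positivity)]
  have key : ∀ k ∈ range (2 ^ j), ∑ l ∈ range (2 ^ j), f ((k:ℤ) - l) ≤
      f 0 + ∑ u ∈ (Ioo (-(2:ℤ) ^ J) (2 ^ J)).erase 0, f u := by
    intro k hk
    have hk2 := mem_range.1 hk
    rw [← add_sum_erase _ _ hk]
    simp only [sub_self]
    gcongr
    have hinj : Set.InjOn (fun l : ℕ => (k:ℤ) - l) ((range (2 ^ j)).erase k) := by
      intro a _ b _ hab
      have : (k:ℤ) - a = k - b := hab
      omega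
    rw [← sum_image (f := f) hinj]
    apply sum_le_sum_of_subset_of_nonneg
    · intro u hu
      obtain ⟨l, hl, rfl⟩ := mem_image.1 hu
      rw [mem_erase, mem_range] at hl
      have h2 : (2:ℕ) ^ j ≤ 2 ^ J := Nat.pow_le_pow_right (by norm_num) hj
      have h3 : ((2:ℕ) ^ J : ℤ) = (2:ℤ) ^ J := by push_cast; rfl
      have h4 : (k:ℤ) < (2:ℤ) ^ J := by rw [← h3]; exact_mod_cast lt_of_lt_of_le hk2 h2
      have h5 : (l:ℤ) < (2:ℤ) ^ J := by rw [← h3]; exact_mod_cast lt_of_lt_of_le hl.2 h2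
      rw [mem_erase, mem_Ioo]
      omega
    · intro i _ _; exact hf i
  calc _ ≤ ∑ k ∈ range (2 ^ j), (f 0 + ∑ u ∈ (Ioo (-(2:ℤ) ^ J) (2 ^ J)).erase 0, f u) :=
        sum_le_sum key
    _ = _ := by rw [sum_const, card_range, nsmul_eq_mul]; push_cast; ring

theorem cnt_thm : CNTStmt := by
  intro ε hε
  obtain ⟨C1, hC1, hdiv⟩ := Pool.Agent.H93.BT.divisor_bound (ε / 4) (by positivity)
  obtain ⟨C2, hC2, hclog⟩ := clog_small (ε / 2) (by positivity)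
  refine ⟨4 + C2 + C1 * C2 * 2 ^ (ε / 4), by positivity, fun K hK q hq G hG => ?_⟩
  set J := Nat.clog 2 K with hJ
  set U := (Ioo (-(2:ℤ) ^ J) (2 ^ J)).erase 0 with hU
  set H := (range K).erase 0 with hH
  set M := (H ×ˢ U).image (fun p : ℕ × ℤ => (p.1 : ℤ) * p.2) with hM
  have hK1 : (1:ℝ) ≤ K := by exact_mod_cast hK
  have hJK : (2:ℝ) ^ J ≤ 2 * K := by exact_mod_cast two_pow_clog_le K hK
  have hHpos : ∀ h ∈ H, 1 ≤ h := by
    intro h hh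
    rw [hH, mem_erase] at hh
    omega
  have hMne : ∀ m ∈ M, m ≠ 0 := by
    intro m hm
    obtain ⟨p, hp, rfl⟩ := mem_image.1 hm
    rw [mem_product] at hp
    have h1 := hHpos _ hp.1
    have h2 := (mem_erase.1 hp.2).1
    apply mul_ne_zero _ h2
    omega
  have hMle : ∀ m ∈ M, ((m.natAbs : ℕ) : ℝ) ≤ 2 * (K:ℝ) ^ 2 := by
    intro m hm
    obtain ⟨p, hp, rfl⟩ := mem_image.1 hm
    rw [mem_product] at hp
    have h1 : p.1 < K := by
      have := (mem_erase.1 hp.1).2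
      exact mem_range.1 this
    have h2 := (mem_erase.1 hp.2).2
    rw [mem_Ioo] at h2
    have h3 : ((p.2.natAbs : ℕ) : ℝ) ≤ 2 ^ J := by
      have : p.2.natAbs ≤ 2 ^ J := by
        have h3 : ((2:ℕ) ^ J : ℤ) = (2:ℤ) ^ J := by push_cast; rfl
        zify
        rw [abs_le]
        constructor <;> omega
      exact_mod_cast this
    rw [Int.natAbs_mul, Int.natAbs_natCast]
    push_cast
    have h4 : ((p.1 : ℕ) : ℝ) ≤ K := by exact_mod_cast h1.le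
    calc ((p.1 : ℕ) : ℝ) * ((p.2.natAbs : ℕ) : ℝ) ≤ K * (2 ^ J) := by gcongr
      _ ≤ K * (2 * K) := by gcongr
      _ = _ := by ring
  -- the set S
  refine ⟨M.image (fun m => 2 * q * m), ?_⟩
  have hinj : Set.InjOn (fun m : ℤ => 2 * q * m) (M : Set ℤ) := by
    intro a _ b _ hab
    exact mul_left_cancel₀ (mul_ne_zero two_ne_zero hq) hab
  rw [sum_image hinj]
  have h0mem : (0:ℕ) ∈ range K := mem_range.2 (by omega)
  rw [← add_sum_erase _ _ h0mem]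
  -- the term h = 0
  have hz : ∑ j ∈ range (J + 1), (∑ k ∈ range (2 ^ j), ∑ l ∈ range (2 ^ j),
      G (2 * ((0:ℕ):ℤ) * q * ((k:ℤ) - l))) / 2 ^ j ≤ 4 * K * G 0 := by
    have e1 : ∀ j ∈ range (J + 1), (∑ k ∈ range (2 ^ j), ∑ l ∈ range (2 ^ j),
        G (2 * ((0:ℕ):ℤ) * q * ((k:ℤ) - l))) / 2 ^ j = 2 ^ j * G 0 := by
      intro j _
      simp only [Nat.cast_zero, mul_zero, zero_mul, sum_const, card_range, nsmul_eq_mul]
      push_cast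
      field_simp
    rw [sum_congr rfl e1, ← sum_mul]
    have e2 : ∑ i ∈ range (J + 1), (2:ℝ) ^ i ≤ 4 * K := by
      have := geom_sum_eq (x := (2:ℝ)) (by norm_num) (J + 1)
      rw [this, pow_succ]
      linarith
    exact mul_le_mul_of_nonneg_right e2 (hG 0)
  -- the terms h >= 1
  have ho : ∑ h ∈ H, ∑ j ∈ range (J + 1), (∑ k ∈ range (2 ^ j), ∑ l ∈ range (2 ^ j),
      G (2 * (h:ℤ) * q * ((k:ℤ) - l))) / 2 ^ j ≤
      ((J:ℝ) + 1) * (K * G 0) + ((J:ℝ) + 1) * ∑ h ∈ H, ∑ u ∈ U, G (2 * q * ((h:ℤ) * u)) := by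
    have e1 : ∀ h ∈ H, ∑ j ∈ range (J + 1), (∑ k ∈ range (2 ^ j), ∑ l ∈ range (2 ^ j),
        G (2 * (h:ℤ) * q * ((k:ℤ) - l))) / 2 ^ j ≤
        ((J:ℝ) + 1) * (G 0 + ∑ u ∈ U, G (2 * q * ((h:ℤ) * u))) := by
      intro h _
      have e3 : ∀ j ∈ range (J + 1), (∑ k ∈ range (2 ^ j), ∑ l ∈ range (2 ^ j),
          G (2 * (h:ℤ) * q * ((k:ℤ) - l))) / 2 ^ j ≤ G 0 + ∑ u ∈ U, G (2 * q * ((h:ℤ) * u)) := by
        intro j hj
        have hj2 : j ≤ J := by rw [mem_range] at hj; omega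
        have := offdiag_le J j hj2 (fun u => G (2 * (h:ℤ) * q * u)) (fun m => hG _)
        refine this.trans (le_of_eq ?_)
        simp only [mul_zero]
        congr 1
        apply sum_congr rfl
        intro u _
        congr 1
        ring
      calc _ ≤ ∑ j ∈ range (J + 1), (G 0 + ∑ u ∈ U, G (2 * q * ((h:ℤ) * u))) := sum_le_sum e3
        _ = _ := by rw [sum_const, card_range, nsmul_eq_mul]; push_cast; ring
    have hHc : ((H.card : ℕ) : ℝ) ≤ K := by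
      have : H.card ≤ K := by
        rw [hH]
        exact (card_erase_le).trans (by rw [card_range])
      exact_mod_cast this
    calc _ ≤ ∑ h ∈ H, ((J:ℝ) + 1) * (G 0 + ∑ u ∈ U, G (2 * q * ((h:ℤ) * u))) := sum_le_sum e1
      _ = ((J:ℝ) + 1) * ((H.card : ℝ) * G 0) +
          ((J:ℝ) + 1) * ∑ h ∈ H, ∑ u ∈ U, G (2 * q * ((h:ℤ) * u)) := by
            rw [← mul_sum, sum_add_distrib, sum_const, nsmul_eq_mul, mul_add]
      _ ≤ _ := by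
            have := hG 0
            gcongr
  -- grouping
  have hg : ∑ h ∈ H, ∑ u ∈ U, G (2 * q * ((h:ℤ) * u)) ≤
      (C1 * 2 ^ (ε / 4) * (K:ℝ) ^ (ε / 2)) * ∑ m ∈ M, G (2 * q * m) := by
    rw [← sum_product']
    have e1 : ∑ p ∈ H ×ˢ U, G (2 * q * ((p.1:ℤ) * p.2)) =
        ∑ m ∈ M, ∑ p ∈ (H ×ˢ U).filter (fun p : ℕ × ℤ => (p.1 : ℤ) * p.2 = m),
          G (2 * q * ((p.1:ℤ) * p.2)) := by
      rw [hM]
      exact (sum_fiberwise_of_maps_to (fun p hp => mem_image_of_mem _ hp) _).symm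
    rw [e1, mul_sum]
    apply sum_le_sum
    intro m hm
    have e2 : ∑ p ∈ (H ×ˢ U).filter (fun p : ℕ × ℤ => (p.1 : ℤ) * p.2 = m),
        G (2 * q * ((p.1:ℤ) * p.2)) =
        (((H ×ˢ U).filter (fun p : ℕ × ℤ => (p.1 : ℤ) * p.2 = m)).card : ℝ) * G (2 * q * m) := by
      rw [← nsmul_eq_mul, ← sum_const]
      apply sum_congr rfl
      intro p hp
      rw [(mem_filter.1 hp).2]
    rw [e2]
    apply mul_le_mul_of_nonneg_right _ (hG _)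
    have hmne := hMne m hm
    have e3 := fiber_card_le H U hHpos m hmne
    have e4 := hdiv m.natAbs (Int.natAbs_ne_zero.2 hmne)
    calc (((H ×ˢ U).filter (fun p : ℕ × ℤ => (p.1 : ℤ) * p.2 = m)).card : ℝ)
        ≤ (m.natAbs.divisors.card : ℝ) := by exact_mod_cast e3
      _ ≤ C1 * ((m.natAbs : ℕ) : ℝ) ^ (ε / 4) := e4
      _ ≤ C1 * (2 * (K:ℝ) ^ 2) ^ (ε / 4) := by
          have := hMle m hm
          gcongr
      _ = C1 * 2 ^ (ε / 4) * (K:ℝ) ^ (ε / 2) := by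
          rw [Real.mul_rpow (by norm_num) (by positivity), ← Real.rpow_natCast (K:ℝ) 2,
            ← Real.rpow_mul (by positivity), mul_assoc]
          congr 3
          push_cast
          ring
  have hJ1 := hclog K hK
  rw [← hJ] at hJ1
  have hS0 : 0 ≤ ∑ m ∈ M, G (2 * q * m) := sum_nonneg fun m _ => hG _
  have hG0 := hG 0
  have hKe : (K:ℝ) ^ (ε / 2) * (K:ℝ) ^ (ε / 2) = (K:ℝ) ^ ε := by
    rw [← Real.rpow_add (by positivity)]
    congr 1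
    ring
  have hKe1 : (1:ℝ) ≤ (K:ℝ) ^ (ε / 2) := Real.one_le_rpow hK1 (by positivity)
  have hKe2 : (K:ℝ) ^ (ε / 2) ≤ (K:ℝ) ^ ε := by
    rw [← hKe]; nlinarith
  have hKe3 : (1:ℝ) ≤ (K:ℝ) ^ ε := hKe1.trans hKe2
  have hKG : 0 ≤ K * G 0 := by positivity
  have t1 : 4 * K * G 0 ≤ 4 * (K:ℝ) ^ ε * (K * G 0) := by
    have : 4 * (K * G 0) * 1 ≤ 4 * (K * G 0) * (K:ℝ) ^ ε := by gcongr
    nlinarith
  have t2 : ((J:ℝ) + 1) * (K * G 0) ≤ C2 * (K:ℝ) ^ ε * (K * G 0) := by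
    apply mul_le_mul_of_nonneg_right _ hKG
    calc _ ≤ C2 * (K:ℝ) ^ (ε / 2) := hJ1
      _ ≤ C2 * (K:ℝ) ^ ε := by gcongr
  have t3 : ((J:ℝ) + 1) * ∑ h ∈ H, ∑ u ∈ U, G (2 * q * ((h:ℤ) * u)) ≤
      C1 * C2 * 2 ^ (ε / 4) * (K:ℝ) ^ ε * ∑ m ∈ M, G (2 * q * m) := by
    calc _ ≤ (C2 * (K:ℝ) ^ (ε / 2)) *
          ((C1 * 2 ^ (ε / 4) * (K:ℝ) ^ (ε / 2)) * ∑ m ∈ M, G (2 * q * m)) := by
            have : 0 ≤ ∑ h ∈ H, ∑ u ∈ U, G (2 * q * ((h:ℤ) * u)) :=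
              sum_nonneg fun _ _ => sum_nonneg fun _ _ => hG _
            gcongr
      _ = C1 * C2 * 2 ^ (ε / 4) * ((K:ℝ) ^ (ε / 2) * (K:ℝ) ^ (ε / 2)) *
          ∑ m ∈ M, G (2 * q * m) := by ring
      _ = _ := by rw [hKe]
  have t4 : 0 ≤ C1 * C2 * 2 ^ (ε / 4) * (K:ℝ) ^ ε * (K * G 0) := by positivity
  have t5 : 0 ≤ (4 + C2) * (K:ℝ) ^ ε * ∑ m ∈ M, G (2 * q * m) := by positivity
  calc _ ≤ 4 * K * G 0 + (((J:ℝ) + 1) * (K * G 0) +
        ((J:ℝ) + 1) * ∑ h ∈ H, ∑ u ∈ U, G (2 * q * ((h:ℤ) * u))) := add_le_add hz ho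
    _ ≤ 4 * (K:ℝ) ^ ε * (K * G 0) + (C2 * (K:ℝ) ^ ε * (K * G 0) +
        C1 * C2 * 2 ^ (ε / 4) * (K:ℝ) ^ ε * ∑ m ∈ M, G (2 * q * m)) := by linarith
    _ ≤ _ := by nlinarith

end Pool.QN
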