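import Pool.Agent.H12.QN.PBS

namespace Pool.QN

open Finset MeasureTheory

theorem dub_thm (h1 : CHVStmt) (h2 : ORTStmt) : DUBStmt := by
  intro c B
  obtain ⟨C, hC, hchv⟩ := h1 c B
  refine ⟨C, hC, fun φ φ1 φ2 hcur g hg ⟨M, hM⟩ S => ?_⟩
  have hφ : AEStronglyMeasurable φ mu := (cur_cont hcur).aestronglyMeasurable measurableSet_Icc
  have hee : ∀ m : ℤ, AEStronglyMeasurable (fun x => ee (m * φ x)) mu := fun m =>
    ee_cont.comp_aestronglyMeasurable (hφ.const_mul _)
  have hi : ∀ m : ℤ, Integrable (fun x => g x * ee (m * φ x)) mu := fun m =>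
    Integrable.of_bound (hg.mul (hee m)) M (Filter.Eventually.of_forall fun x => by
      rw [norm_mul, ee_norm, mul_one]; exact hM x)
  set b : ℤ → ℂ := fun m => (starRingEnd ℂ) (∫ x, g x * ee (m * φ x) ∂mu) with hb
  set P : ℝ → ℂ := fun y => ∑ m ∈ S, b m * ee (m * y) with hP
  have hPc : Continuous P := by
    have := ee_cont
    rw [hP]
    fun_prop
  set T := ∑ m ∈ S, ‖∫ x, g x * ee (m * φ x) ∂mu‖ ^ 2 with hT
  have hTb : ∑ m ∈ S, ‖b m‖ ^ 2 = T := by
    rw [hT]
    apply sum_congr rfl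
    intro m _
    rw [hb]
    simp only [RCLike.norm_conj]
  have hH : ∫ x, ‖P (φ x)‖ ^ 2 ∂mu ≤ C * T := by
    have h3 := hchv φ φ1 φ2 hcur (fun y => ‖P y‖ ^ 2) (by fun_prop) (fun y => by positivity) ?_
    · refine h3.trans (le_of_eq ?_)
      rw [← hTb, ← h2 S b]
    · intro y
      have : P (y + 1) = P y := by
        rw [hP]
        apply sum_congr rfl
        intro m _
        congr 1
        unfold ee
        have : (((2 * Real.pi * (m * (y + 1)) : ℝ) : ℂ) * Complex.I) =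
            ((2 * Real.pi * (m * y) : ℝ) : ℂ) * Complex.I + (m:ℂ) * (2 * Real.pi * Complex.I) := by
          push_cast; ring
        rw [this, Complex.exp_add, Complex.exp_int_mul_two_pi_mul_I, mul_one]
      show ‖P (y + 1)‖ ^ 2 = ‖P y‖ ^ 2
      rw [this]
  -- T as an integral
  have hTint : ((T : ℝ) : ℂ) = ∫ x, g x * P (φ x) ∂mu := by
    have e1 : ∀ x, g x * P (φ x) = ∑ m ∈ S, b m * (g x * ee (m * φ x)) := by
      intro x
      rw [hP, mul_sum]
      apply sum_congr rfl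
      intro m _
      ring
    simp_rw [e1]
    rw [integral_finsetSum _ (fun m _ => (hi m).const_mul _), hT, Complex.ofReal_sum]
    apply sum_congr rfl
    intro m _
    rw [integral_const_mul, hb, Complex.ofReal_pow, ← Complex.conj_mul']
  obtain ⟨M2, hM2⟩ : ∃ M2 : ℝ, ∀ y, ‖P y‖ ≤ M2 :=
    ⟨∑ m ∈ S, ‖b m‖, fun y => (norm_sum_le _ _).trans (le_of_eq (sum_congr rfl fun m _ => by
      rw [norm_mul, ee_norm, mul_one]))⟩
  have hPm : AEStronglyMeasurable (fun x => P (φ x)) mu := hPc.comp_aestronglyMeasurable hφ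
  have hig : Integrable (fun x => ‖g x‖ ^ 2) mu :=
    Integrable.of_bound (hg.norm.pow 2) (M ^ 2) (Filter.Eventually.of_forall fun x => by
      rw [Real.norm_of_nonneg (by positivity)]
      exact pow_le_pow_left₀ (norm_nonneg _) (hM x) 2)
  have hiP : Integrable (fun x => ‖P (φ x)‖ ^ 2) mu :=
    Integrable.of_bound (hPm.norm.pow 2) (M2 ^ 2) (Filter.Eventually.of_forall fun x => by
      rw [Real.norm_of_nonneg (by positivity)]
      exact pow_le_pow_left₀ (norm_nonneg _) (hM2 _) 2)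
  have hgP : Integrable (fun x => g x * P (φ x)) mu := by
    apply Integrable.of_bound (hg.mul hPm) (M * M2) (Filter.Eventually.of_forall fun x => ?_)
    show ‖g x * P (φ x)‖ ≤ M * M2
    rw [norm_mul]
    have k1 := hM x
    have k2 := hM2 (φ x)
    have k3 := norm_nonneg (g x)
    exact mul_le_mul k1 k2 (norm_nonneg _) (k3.trans k1)
  have hT0 : 0 ≤ T := sum_nonneg fun m _ => by positivity
  have key : T ≤ ∫ x, (C / 2 * ‖g x‖ ^ 2 + 1 / (2 * C) * ‖P (φ x)‖ ^ 2) ∂mu := by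
    calc T = ‖((T : ℝ) : ℂ)‖ := by rw [Complex.norm_real, Real.norm_of_nonneg hT0]
      _ = ‖∫ x, g x * P (φ x) ∂mu‖ := by rw [hTint]
      _ ≤ ∫ x, ‖g x * P (φ x)‖ ∂mu := norm_integral_le_integral_norm _
      _ ≤ _ := by
        apply integral_mono hgP.norm ((hig.const_mul _).add (hiP.const_mul _))
        intro x
        show ‖g x * P (φ x)‖ ≤ C / 2 * ‖g x‖ ^ 2 + 1 / (2 * C) * ‖P (φ x)‖ ^ 2
        rw [norm_mul]
        have e : C / 2 * ‖g x‖ ^ 2 + 1 / (2 * C) * ‖P (φ x)‖ ^ 2 - ‖g x‖ * ‖P (φ x)‖ =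
            (C * ‖g x‖ - ‖P (φ x)‖) ^ 2 / (2 * C) := by
          field_simp
          ring
        have e2 : 0 ≤ (C * ‖g x‖ - ‖P (φ x)‖) ^ 2 / (2 * C) := by positivity
        linarith
  rw [integral_add (hig.const_mul _) (hiP.const_mul _), integral_const_mul, integral_const_mul] at key
  have k2 : 1 / (2 * C) * ∫ x, ‖P (φ x)‖ ^ 2 ∂mu ≤ T / 2 := by
    calc _ ≤ 1 / (2 * C) * (C * T) := by gcongr
      _ = T / 2 := by field_simp
  linarith

end Pool.QN
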