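import Pool.Agent.H12.QN.PBS

namespace Pool.QN

open Finset MeasureTheory

theorem ort_ee_mul_conj (s t : ℝ) : ee s * (starRingEnd ℂ) (ee t) = ee (s - t) := by
  unfold ee
  rw [← Complex.exp_conj, ← Complex.exp_add]
  congr 1
  simp only [map_mul, Complex.conj_ofReal, Complex.conj_I]
  push_cast
  ring

theorem ort_int (m : ℤ) : ∫ y in (0:ℝ)..1, ee (m * y) = if m = 0 then 1 else 0 := by
  split_ifs with h
  · subst h
    simp [ee]
  · have h0 : (2 * Real.pi * (m:ℝ) : ℂ) * Complex.I ≠ 0 := by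
      have : (m:ℂ) ≠ 0 := by exact_mod_cast h
      have hpi : (Real.pi : ℂ) ≠ 0 := by exact_mod_cast Real.pi_ne_zero
      simp [this, hpi, Complex.I_ne_zero]
    have e : ∀ y : ℝ, ee (m * y) = Complex.exp (((2 * Real.pi * (m:ℝ) : ℂ) * Complex.I) * y) := by
      intro y
      unfold ee
      congr 1
      push_cast
      ring
    simp_rw [e]
    rw [integral_exp_mul_complex h0]
    have e2 : Complex.exp ((2 * Real.pi * (m:ℝ) : ℂ) * Complex.I * (1:ℝ)) = 1 := by
      rw [Complex.exp_eq_one_iff]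
      exact ⟨m, by push_cast; ring⟩
    rw [e2]
    simp

theorem ort_thm : ORTStmt := by
  intro S b
  have h1 : ∀ y : ℝ, ((‖∑ m ∈ S, b m * ee (m * y)‖ ^ 2 : ℝ) : ℂ) =
      ∑ m ∈ S, ∑ l ∈ S, b m * (starRingEnd ℂ) (b l) * ee (((m - l : ℤ) : ℝ) * y) := by
    intro y
    rw [Complex.ofReal_pow, ← Complex.mul_conj', map_sum, sum_mul_sum]
    apply sum_congr rfl
    intro m _
    apply sum_congr rfl
    intro l _
    rw [map_mul]
    have e := ort_ee_mul_conj (m * y) (l * y)
    have e2 : (((m - l : ℤ) : ℝ) * y) = m * y - l * y := by push_cast; ring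
    rw [e2, ← e]
    ring
  have h2 : ((∫ y in (0:ℝ)..1, ‖∑ m ∈ S, b m * ee (m * y)‖ ^ 2 : ℝ) : ℂ) =
      ((∑ m ∈ S, ‖b m‖ ^ 2 : ℝ) : ℂ) := by
    rw [← intervalIntegral.integral_ofReal]
    simp_rw [h1]
    have hint : ∀ m l : ℤ, IntervalIntegrable
        (fun y : ℝ => b m * (starRingEnd ℂ) (b l) * ee (((m - l : ℤ) : ℝ) * y)) volume 0 1 := by
      intro m l
      apply Continuous.intervalIntegrable
      have := ee_cont
      fun_prop
    have hint2 : ∀ m : ℤ, IntervalIntegrable
        (fun y : ℝ => ∑ l ∈ S, b m * (starRingEnd ℂ) (b l) * ee (((m - l : ℤ) : ℝ) * y)) volume 0 1 := by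
      intro m
      apply Continuous.intervalIntegrable
      have := ee_cont
      fun_prop
    rw [intervalIntegral.integral_finsetSum (fun m _ => hint2 m), Complex.ofReal_sum]
    apply sum_congr rfl
    intro m hm
    rw [intervalIntegral.integral_finsetSum (fun l _ => hint m l)]
    simp_rw [intervalIntegral.integral_const_mul, ort_int]
    rw [sum_eq_single m]
    · simp only [sub_self, if_true, mul_one]
      rw [Complex.mul_conj', Complex.ofReal_pow]
    · intro l _ hl
      rw [if_neg (by intro h; exact hl (by omega)), mul_zero]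
    · intro h; exact absurd hm h
  exact_mod_cast h2

end Pool.QN
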