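import Pool.Agent.H12.QN.Fin2
import Pool.Agent.H12.QN.ORT
import Pool.Agent.H12.QN.CNT
import Pool.Agent.H18.QN.DIR
import Pool.Agent.H88.QN.WEY
import Pool.Agent.H62.QN.WEA
import Pool.Agent.H50.QN.CHV
import Pool.Agent.H12.QN.DUB
import Pool.Agent.H44.QN.GRM
import Pool.Agent.H65.QN.FEI
import Pool.Agent.H78.QN.DUA
import Pool.Agent.H71.QN.PB
import Pool.Agent.H50.QN.PC
import Pool.Agent.H54.QN.AVG

/-! Assembly of the rows of board qnb. -/

namespace Pool.QN

theorem wey_all : WEYStmt := wey_thm dir_thm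

theorem dua_all : DUAStmt :=
  dua_thm (wea_thm wey_all) (dub_thm chv_thm ort_thm) grm_thm fei_thm cnt_thm

theorem pb_all : PBStmt := pb_thm dua_all

theorem pbs_all : PBSStmt := pbs_thm pb_all

theorem pc_all : PCStmt := pc_thm wey_all chv_thm (avg_thm ort_thm cnt_thm)

end Pool.QN
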