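import Pool.Agent.H12.QN.PBS

/-! Curve hypotheses and progressions in the form of the final statements (MP_fa59e7_an). -/

namespace Pool.QN

open Finset MeasureTheory

/-- phi is C^2 on [-1,1] with c <= |phi'| <= B and |phi''| <= B -/
def IsCurve (c B : ℝ) (φ : ℝ → ℝ) : Prop :=
  ContDiffOn ℝ 2 φ (Set.Icc (-1) 1) ∧ ∀ x ∈ Set.Icc (-1:ℝ) 1,
    c ≤ |derivWithin φ (Set.Icc (-1) 1) x| ∧ |derivWithin φ (Set.Icc (-1) 1) x| ≤ B ∧
    |derivWithin (derivWithin φ (Set.Icc (-1) 1)) (Set.Icc (-1) 1) x| ≤ B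

/-- sum over n in S of a_n e(n x + n^2 phi(x)) -/
noncomputable def curveSum (φ : ℝ → ℝ) (S : Finset ℤ) (a : ℤ → ℂ) (x : ℝ) : ℂ :=
  ∑ n ∈ S, a n * Complex.exp (2 * Real.pi * Complex.I * (n * x + (n:ℂ) ^ 2 * φ x))

/-- S is contained in an arithmetic progression with K terms -/
def InProgression (S : Finset ℤ) (K : ℕ) : Prop :=
  ∃ r d : ℤ, ∀ n ∈ S, ∃ k : ℕ, k < K ∧ n = r + d * k

theorem cur_of_isCurve {c B : ℝ} (hc : 0 < c) {φ : ℝ → ℝ} (h : IsCurve c B φ) :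
    Cur c B φ (derivWithin φ (Set.Icc (-1) 1))
      (derivWithin (derivWithin φ (Set.Icc (-1) 1)) (Set.Icc (-1) 1)) := by
  obtain ⟨h1, h2⟩ := h
  have hu : UniqueDiffOn ℝ (Set.Icc (-1:ℝ) 1) := uniqueDiffOn_Icc (by norm_num)
  have h3 : ContDiffOn ℝ 1 (derivWithin φ (Set.Icc (-1) 1)) (Set.Icc (-1) 1) := by
    have h4 : ContDiffOn ℝ (1 + 1) φ (Set.Icc (-1) 1) := by
      have : (2 : WithTop ℕ∞) = 1 + 1 := by norm_num
      rw [← this]; exact h1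
    exact ((contDiffOn_succ_iff_derivWithin hu).1 h4).2.2
  refine ⟨hc, ?_, ?_, ?_, fun x hx => (h2 x hx).1, fun x hx => (h2 x hx).2.1,
    fun x hx => (h2 x hx).2.2⟩
  · intro x hx
    exact ((h1.differentiableOn (by norm_num)) x hx).hasDerivWithinAt
  · intro x hx
    exact ((h3.differentiableOn (by norm_num)) x hx).hasDerivWithinAt
  · exact h3.continuousOn_derivWithin hu le_rfl

/-- a progression may be taken with nonzero difference -/
theorem inProgression_ne {S : Finset ℤ} {K : ℕ} (h : InProgression S K) :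
    ∃ r d : ℤ, d ≠ 0 ∧ ∀ n ∈ S, ∃ k : ℕ, k < K ∧ n = r + d * k := by
  obtain ⟨r, d, h⟩ := h
  by_cases hd : d = 0
  · refine ⟨r, 1, one_ne_zero, fun n hn => ?_⟩
    obtain ⟨k, hk, e⟩ := h n hn
    exact ⟨0, by omega, by rw [e, hd]; simp⟩
  · exact ⟨r, d, hd, h⟩

theorem sum_prog {M : Type*} [AddCommMonoid M] {S : Finset ℤ} {K : ℕ} {r d : ℤ} (hd : d ≠ 0)
    (h : ∀ n ∈ S, ∃ k : ℕ, k < K ∧ n = r + d * k) (f : ℤ → M) :
    ∑ k ∈ range K, (if r + d * (k:ℤ) ∈ S then f (r + d * k) else 0) = ∑ n ∈ S, f n := by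
  rw [← sum_filter]
  have hS : S = ((range K).filter (fun k : ℕ => r + d * (k:ℤ) ∈ S)).image
      (fun k : ℕ => r + d * (k:ℤ)) := by
    ext n
    simp only [mem_image, mem_filter, mem_range]
    constructor
    · intro hn
      obtain ⟨k, hk, e⟩ := h n hn
      exact ⟨k, ⟨hk, e ▸ hn⟩, e.symm⟩
    · rintro ⟨k, ⟨_, hk⟩, rfl⟩
      exact hk
  conv_rhs => rw [hS]
  rw [sum_image]
  intro k _ l _ hkl
  have h1 : d * (k:ℤ) = d * (l:ℤ) := by
    have : r + d * (k:ℤ) = r + d * (l:ℤ) := hkl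
    linarith
  exact_mod_cast mul_left_cancel₀ hd h1

/-- coefficients on the progression -/
noncomputable def coef (S : Finset ℤ) (r d : ℤ) (a : ℤ → ℂ) (k : ℕ) : ℂ :=
  if r + d * (k:ℤ) ∈ S then a (r + d * k) else 0

theorem fa_coef {S : Finset ℤ} {K : ℕ} {r d : ℤ} (hd : d ≠ 0)
    (h : ∀ n ∈ S, ∃ k : ℕ, k < K ∧ n = r + d * k) (a : ℤ → ℂ) (φ : ℝ → ℝ) (x : ℝ) :
    FA d r K (coef S r d a) φ x = curveSum φ S a x := by
  unfold curveSum
  rw [← sum_prog hd h (fun n => a n * Complex.exp (2 * Real.pi * Complex.I *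
    (n * x + (n:ℂ) ^ 2 * φ x)))]
  unfold FA coef
  apply sum_congr rfl
  intro k _
  split_ifs with hk
  · congr 1
    unfold uu ee
    congr 1
    push_cast
    ring
  · rw [zero_mul]

theorem norm_coef {S : Finset ℤ} {K : ℕ} {r d : ℤ} (hd : d ≠ 0)
    (h : ∀ n ∈ S, ∃ k : ℕ, k < K ∧ n = r + d * k) (a : ℤ → ℂ) :
    ∑ k ∈ range K, ‖coef S r d a k‖ ^ 2 = ∑ n ∈ S, ‖a n‖ ^ 2 := by
  rw [← sum_prog hd h (fun n => ‖a n‖ ^ 2)]
  apply sum_congr rfl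
  intro k _
  unfold coef
  split_ifs with hk
  · rfl
  · simp

theorem large_values (h1 : PBSStmt) (c B ε : ℝ) (hc : 0 < c) (hε : 0 < ε) :
    ∃ C : ℝ, 0 < C ∧ ∀ φ : ℝ → ℝ, IsCurve c B φ → ∀ (S : Finset ℤ) (K : ℕ), InProgression S K →
      ∀ (a : ℤ → ℂ) (lam : ℝ), 0 < lam →
        C * (K:ℝ) ^ (1 + ε) * (∑ n ∈ S, ‖a n‖ ^ 2) ^ 2 ≤ lam ^ 4 →
        ∫ x in {x ∈ Set.Icc (-1:ℝ) 1 | lam ≤ ‖curveSum φ S a x‖}, ‖curveSum φ S a x‖ ^ 4 ≤
          C * (K:ℝ) ^ ε * (∑ n ∈ S, ‖a n‖ ^ 2) ^ 2 := by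
  obtain ⟨C, hC, h2⟩ := h1 c B ε hε
  refine ⟨C, hC, fun φ hφ S K hS a lam hlam hbig => ?_⟩
  obtain ⟨r, d, hd, hS⟩ := inProgression_ne hS
  rcases Nat.eq_zero_or_pos K with hK | hK
  · -- empty set of frequencies
    have hSe : S = ∅ := by
      apply eq_empty_of_forall_notMem
      intro n hn
      obtain ⟨k, hk, _⟩ := hS n hn
      omega
    subst hSe
    have : ∀ x, curveSum φ ∅ a x = 0 := fun x => by unfold curveSum; simp
    simp only [this, norm_zero]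
    simp
  · have h3 := h2 φ _ _ (cur_of_isCurve hc hφ) d r hd K hK (coef S r d a) lam hlam
    rw [norm_coef hd hS] at h3
    have h4 := h3 hbig
    simp only [fa_coef hd hS] at h4
    have e : {x ∈ Set.Icc (-1:ℝ) 1 | lam ≤ ‖curveSum φ S a x‖} =
        {x | lam ≤ ‖curveSum φ S a x‖} ∩ Set.Icc (-1) 1 := by
      ext x; simp [and_comm]
    rw [e]
    unfold mu at h4
    rwa [Measure.restrict_restrict' measurableSet_Icc] at h4

end Pool.QN
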