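import Pool.Agent.H12.QN.Fin

/-! Structured coefficients in the form of the final statement (MP_fa59e7_an). -/

namespace Pool.QN

open Finset MeasureTheory

theorem ee_add (s t : ℝ) : ee (s + t) = ee s * ee t := by
  unfold ee
  rw [← Complex.exp_add]
  congr 1
  push_cast
  ring

theorem quad_phases (h1 : PCStmt) (c B ε : ℝ) (hc : 0 < c) (hε : 0 < ε) :
    ∃ C : ℝ, 0 < C ∧ ∀ φ : ℝ → ℝ, IsCurve c B φ → ∀ (r d : ℤ), d ≠ 0 → ∀ K : ℕ, 1 ≤ K →
      ∀ (w : ℕ → ℂ) (α β : ℝ),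
        ∫ x in (-1:ℝ)..1, ‖∑ k ∈ range K, w k * Complex.exp (2 * Real.pi * Complex.I *
          (((r:ℂ) + d * k) * (x + α) + ((r:ℂ) + d * k) ^ 2 * (φ x + β)))‖ ^ 4 ≤
          C * (K:ℝ) ^ (2 + ε) * (‖w 0‖ + ∑ k ∈ range (K - 1), ‖w (k + 1) - w k‖) ^ 4 := by
  obtain ⟨C, hC, h2⟩ := h1 c B ε hε
  refine ⟨C, hC, fun φ hφ r d hd K hK w α β => ?_⟩
  have h3 := h2 φ _ _ (cur_of_isCurve hc hφ) d r hd K hK w (d * α + 2 * r * d * β) (d ^ 2 * β)
  refine le_trans (le_of_eq ?_) h3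
  rw [intervalIntegral.integral_of_le (by norm_num), ← integral_Icc_eq_integral_Ioc]
  unfold mu
  congr 1
  ext x
  congr 1
  have e : ∑ k ∈ range K, w k * Complex.exp (2 * Real.pi * Complex.I *
          (((r:ℂ) + d * k) * (x + α) + ((r:ℂ) + d * k) ^ 2 * (φ x + β))) =
      ee (r * α + (r:ℝ) ^ 2 * β) *
        FA d r K (fun k => w k * ee ((d * α + 2 * r * d * β) * k + d ^ 2 * β * (k:ℝ) ^ 2)) φ x := by
    unfold FA
    rw [mul_sum]
    apply sum_congr rfl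
    intro k _
    have e1 : Complex.exp (2 * Real.pi * Complex.I *
          (((r:ℂ) + d * k) * (x + α) + ((r:ℂ) + d * k) ^ 2 * (φ x + β))) =
        ee ((r * α + (r:ℝ) ^ 2 * β) + (((d * α + 2 * r * d * β) * k + d ^ 2 * β * (k:ℝ) ^ 2) +
          (((r:ℝ) + d * k) * x + ((r:ℝ) + d * k) ^ 2 * φ x))) := by
      unfold ee
      congr 1
      push_cast
      ring
    rw [e1, ee_add (r * α + (r:ℝ) ^ 2 * β), ee_add ((d * α + 2 * r * d * β) * k + d ^ 2 * β * (k:ℝ) ^ 2)]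
    unfold uu
    ring
  rw [e, norm_mul, ee_norm, one_mul]

end Pool.QN
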