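import Pool.Agent.H12.QN.Stmts
import Pool.Agent.H12.QN.CNT

/-! From the weak type bound PB to the L^4 bound on the set of large values. -/

namespace Pool.QN

open Finset MeasureTheory

theorem ee_norm (t : ℝ) : ‖ee t‖ = 1 := by
  unfold ee; exact Complex.norm_exp_ofReal_mul_I _

theorem uu_norm (d r : ℤ) (φ : ℝ → ℝ) (k : ℕ) (x : ℝ) : ‖uu d r φ k x‖ = 1 := ee_norm _

theorem cur_cont {c B : ℝ} {φ φ1 φ2 : ℝ → ℝ} (h : Cur c B φ φ1 φ2) :
    ContinuousOn φ (Set.Icc (-1) 1) := fun x hx => (h.d1 x hx).continuousWithinAt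

theorem ee_cont : Continuous ee := by
  unfold ee; fun_prop

theorem fa_contOn {c B : ℝ} {φ φ1 φ2 : ℝ → ℝ} (h : Cur c B φ φ1 φ2) (d r : ℤ) (K : ℕ)
    (a : ℕ → ℂ) : ContinuousOn (FA d r K a φ) (Set.Icc (-1) 1) := by
  unfold FA uu
  apply continuousOn_finsetSum
  intro k _
  apply ContinuousOn.mul continuousOn_const
  apply ee_cont.comp_continuousOn
  have := cur_cont h
  fun_prop

theorem fa_aesm {c B : ℝ} {φ φ1 φ2 : ℝ → ℝ} (h : Cur c B φ φ1 φ2) (d r : ℤ) (K : ℕ)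
    (a : ℕ → ℂ) : AEStronglyMeasurable (FA d r K a φ) mu :=
  (fa_contOn h d r K a).aestronglyMeasurable measurableSet_Icc

/-- |F|^2 <= K sum |a|^2 -/
theorem fa_sq_le (d r : ℤ) (K : ℕ) (a : ℕ → ℂ) (φ : ℝ → ℝ) (x : ℝ) :
    ‖FA d r K a φ x‖ ^ 2 ≤ K * ∑ k ∈ range K, ‖a k‖ ^ 2 := by
  have h1 : ‖FA d r K a φ x‖ ≤ ∑ k ∈ range K, ‖a k‖ := by
    unfold FA
    refine (norm_sum_le _ _).trans (le_of_eq (sum_congr rfl fun k _ => ?_))
    rw [norm_mul, uu_norm, mul_one]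
  have h2 : (∑ k ∈ range K, ‖a k‖) ^ 2 ≤ K * ∑ k ∈ range K, ‖a k‖ ^ 2 := by
    have := sq_sum_le_card_mul_sum_sq (s := range K) (f := fun k => ‖a k‖)
    rwa [card_range] at this
  exact (pow_le_pow_left₀ (norm_nonneg _) h1 2).trans h2

instance : IsFiniteMeasure mu := by
  unfold mu
  infer_instance

/-- the L^4 bound on the set of large values -/
def PBSStmt : Prop := ∀ c B ε : ℝ, 0 < ε → ∃ C : ℝ, 0 < C ∧ ∀ φ φ1 φ2 : ℝ → ℝ, Cur c B φ φ1 φ2 →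
  ∀ d r : ℤ, d ≠ 0 → ∀ K : ℕ, 1 ≤ K → ∀ a : ℕ → ℂ, ∀ lam : ℝ, 0 < lam →
    C * (K:ℝ) ^ (1 + ε) * (∑ k ∈ range K, ‖a k‖ ^ 2) ^ 2 ≤ lam ^ 4 →
    ∫ x in {x | lam ≤ ‖FA d r K a φ x‖}, ‖FA d r K a φ x‖ ^ 4 ∂mu ≤
      C * (K:ℝ) ^ ε * (∑ k ∈ range K, ‖a k‖ ^ 2) ^ 2

theorem pbs_thm (h1 : PBStmt) : PBSStmt := by
  intro c B ε hε
  obtain ⟨C1, hC1, hPB⟩ := h1 c B (ε / 2) (by positivity)
  obtain ⟨C2, hC2, hclog⟩ := clog_small (ε / 2) (by positivity)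
  refine ⟨C1 + 1 + 16 * C1 * C2, by positivity, fun φ φ1 φ2 hcur d r hd K hK a lam hlam hbig => ?_⟩
  set A := ∑ k ∈ range K, ‖a k‖ ^ 2 with hA
  set F := FA d r K a φ with hF
  set J := Nat.clog 2 K with hJ
  have hA0 : 0 ≤ A := sum_nonneg fun k _ => by positivity
  have hK1 : (1:ℝ) ≤ K := by exact_mod_cast hK
  have hKe : (K:ℝ) ^ (ε / 2) ≤ (K:ℝ) ^ ε :=
    Real.rpow_le_rpow_of_exponent_le hK1 (by linarith)
  have hKe1 : (K:ℝ) ^ (1 + ε / 2) ≤ (K:ℝ) ^ (1 + ε) :=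
    Real.rpow_le_rpow_of_exponent_le hK1 (by linarith)
  have hKe2 : (K:ℝ) ≤ (K:ℝ) ^ (1 + ε) := by
    calc (K:ℝ) = (K:ℝ) ^ (1:ℝ) := (Real.rpow_one _).symm
      _ ≤ _ := Real.rpow_le_rpow_of_exponent_le hK1 (by linarith)
  have hFm : AEStronglyMeasurable F mu := fa_aesm hcur d r K a
  -- the dyadic levels
  have hlev : ∀ j : ℕ, (2 ^ j * lam) ^ 4 * (mu {x | 2 ^ j * lam ≤ ‖F x‖}).toReal ≤
      C1 * (K:ℝ) ^ (ε / 2) * A ^ 2 := by
    intro j
    apply hPB φ φ1 φ2 hcur d r hd K hK a (2 ^ j * lam) (by positivity)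
    have e1 : lam ^ 4 ≤ (2 ^ j * lam) ^ 4 := by
      apply pow_le_pow_left₀ hlam.le
      have : (1:ℝ) ≤ 2 ^ j := one_le_pow₀ (by norm_num)
      nlinarith
    have e2 : C1 * (K:ℝ) ^ (1 + ε / 2) * A ^ 2 ≤
        (C1 + 1 + 16 * C1 * C2) * (K:ℝ) ^ (1 + ε) * A ^ 2 := by
      have : C1 ≤ C1 + 1 + 16 * C1 * C2 := by
        have : 0 < C1 * C2 := by positivity
        nlinarith
      gcongr
    exact e2.trans (hbig.trans e1)
  -- the top level
  have htop : ∀ x, ‖F x‖ < 2 ^ (J + 1) * lam := by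
    intro x
    by_contra hcon
    push Not at hcon
    have h4 : (2 ^ (J + 1) * lam) ^ 4 ≤ ‖F x‖ ^ 4 := pow_le_pow_left₀ (by positivity) hcon 4
    have h5 : ‖F x‖ ^ 4 ≤ (K * A) ^ 2 := by
      have := fa_sq_le d r K a φ x
      calc ‖F x‖ ^ 4 = (‖F x‖ ^ 2) ^ 2 := by ring
        _ ≤ _ := pow_le_pow_left₀ (by positivity) this 2
    have h6 : (K:ℝ) ≤ 2 ^ J := by exact_mod_cast Nat.le_pow_clog (by norm_num) K
    have h7 : (K:ℝ) * A ^ 2 ≤ lam ^ 4 := by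
      refine le_trans ?_ hbig
      calc (K:ℝ) * A ^ 2 = 1 * (K:ℝ) * A ^ 2 := by ring
        _ ≤ (C1 + 1 + 16 * C1 * C2) * (K:ℝ) ^ (1 + ε) * A ^ 2 := by
          have : 1 ≤ C1 + 1 + 16 * C1 * C2 := by
            have : 0 < C1 * C2 := by positivity
            nlinarith
          gcongr
    have h8 : (K:ℝ) ^ 4 ≤ (2 ^ J) ^ 4 := pow_le_pow_left₀ (by positivity) h6 4
    have h9 : (2 ^ (J + 1) * lam) ^ 4 = 16 * ((2:ℝ) ^ J) ^ 4 * lam ^ 4 := by ring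
    have h10 : ((K:ℝ) * A) ^ 2 ≤ ((2:ℝ) ^ J) ^ 4 * lam ^ 4 := by
      have hl4 : 0 < lam ^ 4 := by positivity
      have e3 : (K:ℝ) ≤ (K:ℝ) ^ 4 := by
        calc (K:ℝ) = (K:ℝ) ^ 1 := (pow_one _).symm
          _ ≤ (K:ℝ) ^ 4 := pow_le_pow_right₀ hK1 (by norm_num)
      calc ((K:ℝ) * A) ^ 2 = (K:ℝ) * ((K:ℝ) * A ^ 2) := by ring
        _ ≤ (2 ^ J) ^ 4 * lam ^ 4 := by
          apply mul_le_mul (e3.trans h8) h7 (by positivity) (by positivity)
    have h11 : 0 < ((2:ℝ) ^ J) ^ 4 * lam ^ 4 := by positivity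
    nlinarith
  set E : ℕ → Set ℝ := fun j => {x | 2 ^ j * lam ≤ ‖F x‖} with hE
  have hEm : ∀ j, NullMeasurableSet (E j) mu := fun j =>
    nullMeasurableSet_le aemeasurable_const hFm.norm.aemeasurable
  -- pointwise bound
  have hpt : ∀ x ∈ {x | lam ≤ ‖F x‖}, ‖F x‖ ^ 4 ≤
      ∑ j ∈ range (J + 1), (E j).indicator (fun _ => 16 * (2 ^ j * lam) ^ 4) x := by
    intro x hx
    have hx0 : lam ≤ ‖F x‖ := hx
    have hex : ∃ n : ℕ, ‖F x‖ < 2 ^ n * lam := ⟨J + 1, htop x⟩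
    classical
    set n := Nat.find hex with hn
    have hn1 : ‖F x‖ < 2 ^ n * lam := Nat.find_spec hex
    have hn0 : n ≠ 0 := by
      intro h0
      rw [h0, pow_zero, one_mul] at hn1
      linarith
    obtain ⟨j, hj⟩ := Nat.exists_eq_succ_of_ne_zero hn0
    have hnle : n ≤ J + 1 := Nat.find_min' hex (htop x)
    have hj1 : 2 ^ j * lam ≤ ‖F x‖ := by
      have := Nat.find_min hex (m := j) (by omega)
      push Not at this
      exact this
    have hjm : j ∈ range (J + 1) := mem_range.2 (by omega)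
    have hb : ‖F x‖ ^ 4 ≤ 16 * (2 ^ j * lam) ^ 4 := by
      have : ‖F x‖ ≤ 2 * (2 ^ j * lam) := by
        rw [hj, pow_succ] at hn1
        linarith
      calc ‖F x‖ ^ 4 ≤ (2 * (2 ^ j * lam)) ^ 4 := pow_le_pow_left₀ (norm_nonneg _) this 4
        _ = _ := by ring
    have hmem : x ∈ E j := hj1
    calc ‖F x‖ ^ 4 ≤ (E j).indicator (fun _ => 16 * (2 ^ j * lam) ^ 4) x := by
          rw [Set.indicator_of_mem hmem]; exact hb
      _ ≤ _ := single_le_sum (f := fun j => (E j).indicator (fun _ => 16 * (2 ^ j * lam) ^ 4) x)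
          (fun i _ => Set.indicator_nonneg (fun _ _ => by positivity) _) hjm
  have hbd : ∀ x, ‖‖F x‖ ^ 4‖ ≤ (K * A) ^ 2 := by
    intro x
    have := fa_sq_le d r K a φ x
    rw [Real.norm_of_nonneg (by positivity)]
    calc ‖F x‖ ^ 4 = (‖F x‖ ^ 2) ^ 2 := by ring
      _ ≤ _ := pow_le_pow_left₀ (by positivity) this 2
  have hi1 : Integrable (fun x => ‖F x‖ ^ 4) mu := by
    refine Integrable.of_bound (hFm.norm.pow 4) ((K * A) ^ 2) (Filter.Eventually.of_forall hbd)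
  have hi2 : ∀ j ∈ range (J + 1),
      Integrable (fun x => (E j).indicator (fun _ => 16 * (2 ^ j * lam) ^ 4) x) mu := by
    intro j _
    exact (integrable_const _).indicator₀ (hEm j)
  have hE0 : NullMeasurableSet {x | lam ≤ ‖F x‖} mu :=
    nullMeasurableSet_le aemeasurable_const hFm.norm.aemeasurable
  calc ∫ x in {x | lam ≤ ‖F x‖}, ‖F x‖ ^ 4 ∂mu
      = ∫ x, Set.indicator {x | lam ≤ ‖F x‖} (fun x => ‖F x‖ ^ 4) x ∂mu :=
        (integral_indicator₀ hE0).symm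
    _ ≤ ∫ x, ∑ j ∈ range (J + 1), (E j).indicator (fun _ => 16 * (2 ^ j * lam) ^ 4) x ∂mu := by
        apply integral_mono (hi1.indicator₀ hE0) (integrable_finsetSum _ hi2)
        intro x
        by_cases hx : x ∈ {x | lam ≤ ‖F x‖}
        · show Set.indicator {x | lam ≤ ‖F x‖} (fun x => ‖F x‖ ^ 4) x ≤ _
          rw [Set.indicator_of_mem hx]
          exact hpt x hx
        · show Set.indicator {x | lam ≤ ‖F x‖} (fun x => ‖F x‖ ^ 4) x ≤ _
          rw [Set.indicator_of_notMem hx]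
          exact sum_nonneg fun j _ => Set.indicator_nonneg (fun _ _ => by positivity) _
    _ = ∑ j ∈ range (J + 1), 16 * ((2 ^ j * lam) ^ 4 * (mu (E j)).toReal) := by
        rw [integral_finsetSum _ hi2]
        apply sum_congr rfl
        intro j _
        rw [integral_indicator₀ (hEm j), setIntegral_const, smul_eq_mul]
        show (mu (E j)).toReal * _ = _
        ring
    _ ≤ ∑ j ∈ range (J + 1), 16 * (C1 * (K:ℝ) ^ (ε / 2) * A ^ 2) := by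
        apply sum_le_sum
        intro j _
        have := hlev j
        linarith
    _ = ((J:ℝ) + 1) * (16 * (C1 * (K:ℝ) ^ (ε / 2) * A ^ 2)) := by
        rw [sum_const, card_range, nsmul_eq_mul]; push_cast; ring
    _ ≤ (C2 * (K:ℝ) ^ (ε / 2)) * (16 * (C1 * (K:ℝ) ^ (ε / 2) * A ^ 2)) := by
        have := hclog K hK
        gcongr
    _ = 16 * C1 * C2 * ((K:ℝ) ^ (ε / 2) * (K:ℝ) ^ (ε / 2)) * A ^ 2 := by ring
    _ = 16 * C1 * C2 * (K:ℝ) ^ ε * A ^ 2 := by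
        rw [← Real.rpow_add (by positivity)]
        congr 3
        ring
    _ ≤ _ := by
        have : 16 * C1 * C2 ≤ C1 + 1 + 16 * C1 * C2 := by linarith
        gcongr

end Pool.QN
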