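import Mathlib

/-! # Board `qn` (MP_fa59e7_an, helper12): L^4 norm of parabolic exponential sums along curves

F(x) = sum_{n in P} a_n e(n x + n^2 phi(x)), P an arithmetic progression of K integers, phi C^2 on
[-1,1], c <= |phi'| <= B, |phi''| <= B.  Goal: (P1) ||F||_4^4 <= C K^(1/2+eps) ||a||_2^4,
(P2) the bound of the question for the large values |F| >= C K^(1/4+eps) ||a||_2,
(P3) the full bound K^(2+eps) for a_n = w_n e(alpha n + beta n^2), w of bounded variation.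

Each row XXX is a `def XXXStmt : Prop` with a complete proof in its docstring.
File of a row: Pool/Agent/H<k>/QN/XXX.lean, namespace Pool.QN, `theorem xxx_thm (h1 : YYYStmt) ... : XXXStmt`
(hypotheses: the rows of column needs, in that order). -/

namespace Pool.QN

open Finset MeasureTheory

/-- e(t) = exp(2 pi i t) -/
noncomputable def ee (t : ℝ) : ℂ := Complex.exp (((2 * Real.pi * t : ℝ) : ℂ) * Complex.I)

/-- Lebesgue measure on [-1,1] -/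
noncomputable def mu : Measure ℝ := volume.restrict (Set.Icc (-1) 1)

/-- the geometric sum over n < L of e(n t) -/
noncomputable def DD (L : ℕ) (t : ℝ) : ℂ := ∑ n ∈ range L, ee (n * t)

/-- Fejer kernel of order 2^j: |D_{2^j}|^2 / 2^j -/
noncomputable def Fj (j : ℕ) (t : ℝ) : ℝ := ‖DD (2 ^ j) t‖ ^ 2 / 2 ^ j

/-- sum over h < K, j <= clog_2 K of F_j (2 h t) -/
noncomputable def WW (K : ℕ) (t : ℝ) : ℝ :=
  ∑ h ∈ range K, ∑ j ∈ range (Nat.clog 2 K + 1), Fj j (2 * h * t)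

/-- the hypotheses on the curve -/
structure Cur (c B : ℝ) (φ φ1 φ2 : ℝ → ℝ) : Prop where
  cpos : 0 < c
  d1 : ∀ x ∈ Set.Icc (-1:ℝ) 1, HasDerivWithinAt φ (φ1 x) (Set.Icc (-1) 1) x
  d2 : ∀ x ∈ Set.Icc (-1:ℝ) 1, HasDerivWithinAt φ1 (φ2 x) (Set.Icc (-1) 1) x
  cont : ContinuousOn φ2 (Set.Icc (-1) 1)
  lo : ∀ x ∈ Set.Icc (-1:ℝ) 1, c ≤ |φ1 x|
  hi : ∀ x ∈ Set.Icc (-1:ℝ) 1, |φ1 x| ≤ B
  hi2 : ∀ x ∈ Set.Icc (-1:ℝ) 1, |φ2 x| ≤ B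

/-- sum over n in S of a_n e(n x + n^2 phi(x)) -/
noncomputable def FF (S : Finset ℤ) (a : ℤ → ℂ) (φ : ℝ → ℝ) (x : ℝ) : ℂ :=
  ∑ n ∈ S, a n * ee (n * x + (n:ℝ) ^ 2 * φ x)

/-- the k-th character of the progression r + d k along the curve -/
noncomputable def uu (d r : ℤ) (φ : ℝ → ℝ) (k : ℕ) (x : ℝ) : ℂ :=
  ee (((r:ℝ) + d * k) * x + ((r:ℝ) + d * k) ^ 2 * φ x)

/-- sum over k < K of a_k e(n x + n^2 phi(x)), n = r + d k -/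
noncomputable def FA (d r : ℤ) (K : ℕ) (a : ℕ → ℂ) (φ : ℝ → ℝ) (x : ℝ) : ℂ :=
  ∑ k ∈ range K, a k * uu d r φ k x

/-! ### exponential sums -/

/-- DIR (needs -).  |D_L(t)| <= 16 sum_{j <= J} F_j(t) for L <= 2^J.
Proof: s = |e(t) - 1| / 2 (in [0,1]).  (1) |D_L| <= L, and |D_L| |e(t) - 1| = |e(L t) - 1| <= 2 gives s |D_L| <= 1.
(2) |e(n t) - 1| <= n |e(t) - 1| = 2 n s, so |D_K - K| <= sum_{n<K} 2 n s <= K^2 s; hence if K s <= 1/2 then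
|D_K| >= K/2 and |D_K|^2/K >= K/4.  All F_j >= 0.
If 2^J s <= 1/2: |D_L| <= L <= 2^J <= 4 F_J.
If s > 1/2: |D_L| <= 1/s < 2 = 2 F_0 (F_0 = |D_1|^2 = 1).
Otherwise there is j < J with 2^j s <= 1/2 < 2^(j+1) s (Nat.find or induction):
|D_L| <= 1/s < 4 * 2^j <= 16 F_j. -/
def DIRStmt : Prop := ∀ (J L : ℕ) (t : ℝ), L ≤ 2 ^ J →
  ‖DD L t‖ ≤ 16 * ∑ j ∈ range (J + 1), Fj j t

/-- WEY (needs DIR).  Weyl differencing, uniform in z: |sum_{k<L} e(k z + k^2 t)|^2 <= 32 W_K(t) for L <= K.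
Proof: |S|^2 = sum_{k,l<L} e((k-l) z + (k^2-l^2) t).  Diagonal: L.  The pairs with k - l = h >= 1: the sum over
l < L - h of e(h z + h^2 t) e(2 h l t), modulus |D_{L-h}(2 h t)|; the pairs with l - k = h: the conjugate.
So |S|^2 <= L + 2 sum_{1<=h<L} |D_{L-h}(2 h t)| <= L + 32 sum_{1<=h<K} sum_{j <= J} F_j(2 h t) (DIR with J = clog 2 K:
L - h <= K <= 2^J, Nat.le_pow_clog), and the term h = 0 of 32 W_K is >= 32 F_J(0) = 32 * 2^J >= K >= L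
(D_{2^J}(0) = 2^J).  All terms are nonnegative. -/
def WEYStmt : Prop := ∀ (K L : ℕ) (z t : ℝ), L ≤ K →
  ‖∑ k ∈ range L, ee (k * z + (k:ℝ) ^ 2 * t)‖ ^ 2 ≤ 32 * WW K t

/-- WEA (needs WEY).  |sum_{k<K} e((r+dk) X + (r+dk)^2 T)|^2 <= 32 W_K(d^2 T).
Proof: the phase is r X + r^2 T + k (d X + 2 r d T) + k^2 (d^2 T); factor out the unimodular e(r X + r^2 T),
apply WEY with L = K. -/
def WEAStmt : Prop := ∀ (K : ℕ) (d r : ℤ) (X T : ℝ),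
  ‖∑ k ∈ range K, ee (((r:ℝ) + d * k) * X + ((r:ℝ) + d * k) ^ 2 * T)‖ ^ 2 ≤ 32 * WW K ((d:ℝ) ^ 2 * T)

/-! ### the curve -/

/-- VDC (needs -).  First derivative test: for integers h <> 0, |s| >= 2/c:
|int_{-1}^1 e(h (x + s phi(x))) dx| <= C/(|h| |s|).
Proof: theta = h (x + s phi), theta' = h (1 + s phi'), |theta'| >= |h| (|s| c - 1) >= |h| |s| c/2 > 0 (as |s| c >= 2),
theta'' = h s phi''.  e(theta) = (e(theta))' / (2 pi i theta'); integrate by parts (functions e(theta) and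
1/(2 pi i theta'), both C^1 on [-1,1]; one-sided derivatives at the end points are fine:
intervalIntegral.integral_mul_deriv_eq_deriv_mul_of_hasDeriv_right or _of_hasDerivWithinAt):
int e(theta) = [e(theta)/(2 pi i theta')] + int e(theta) theta''/(2 pi i theta'^2),
so the modulus is <= 2 * 2/(|h||s|c) + 2 * |h||s| B * 4/(|h|^2|s|^2c^2) = (4/c + 8 B/c^2)/(|h||s|)  (2 pi >= 1). -/
def VDCStmt : Prop := ∀ c B : ℝ, ∃ C : ℝ, 0 < C ∧ ∀ φ φ1 φ2 : ℝ → ℝ, Cur c B φ φ1 φ2 →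
  ∀ h s : ℤ, h ≠ 0 → 2 / c ≤ |(s:ℝ)| →
    ‖∫ x in (-1:ℝ)..1, ee (h * (x + s * φ x))‖ ≤ C / (|(h:ℝ)| * |(s:ℝ)|)

/-- L2B (needs VDC).  int |F|^2 <= C sum |a_n|^2 for any finite set S of integers.
Proof: int |F|^2 = sum_{n,m in S} a_n conj(a_m) int e((n-m) x + (n^2-m^2) phi), (n-m) x + (n^2-m^2) phi =
h (x + s phi), h = n - m, s = n + m.  Put k(n,m) = 2 if h = 0 or |s| < 2/c (trivial bound), and else
k(n,m) = C1/(|h||s|) <= C1 (1/h^2 + 1/s^2) (VDC).  k is symmetric and |a_n||a_m| <= (|a_n|^2+|a_m|^2)/2, so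
int |F|^2 <= sum_n |a_n|^2 sum_m k(n,m), and sum_m k(n,m) <= 2 (1 + #{m : |n+m| < 2/c}) + C1 (sum_{h<>0} 1/h^2 + sum_{s<>0} 1/s^2)
<= 2 (1 + 4/c + 1) + 8 C1  (injectivity of m -> n - m, n + m; for a finite set T of nonzero integers
sum_{h in T} 1/h^2 <= 2 sum_{h>=1} 1/h^2 <= 4). -/
def L2BStmt : Prop := ∀ c B : ℝ, ∃ C : ℝ, 0 < C ∧ ∀ φ φ1 φ2 : ℝ → ℝ, Cur c B φ φ1 φ2 →
  ∀ (S : Finset ℤ) (a : ℤ → ℂ), ∫ x, ‖FF S a φ x‖ ^ 2 ∂mu ≤ C * ∑ n ∈ S, ‖a n‖ ^ 2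

/-- CHV (needs -).  Change of variables: for p >= 0 continuous, 1-periodic: int_{-1}^1 p(phi(x)) dx <= C int_0^1 p.
Proof: phi1 is continuous (d2) and has no zero, so phi1 > 0 on [-1,1] or phi1 < 0 on [-1,1] (IVT); say > 0
(else use -phi and p(-y), or the reversed interval).  p(phi(x)) <= (1/c) p(phi(x)) phi1(x), and
int_{-1}^1 p(phi(x)) phi1(x) dx = int_{phi(-1)}^{phi(1)} p(y) dy (intervalIntegral.integral_comp_mul_deriv'''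
or the version with HasDerivWithinAt / one-sided derivatives in the open interval), and |phi(1) - phi(-1)| <= 2 B
(mean value).  An interval of length <= 2B is contained in one of integer length N = ceil(2B) + 1, over which the
integral of the 1-periodic p is N int_0^1 p (Function.Periodic.intervalIntegral_add_eq, sum over unit intervals).
C = (2 |B| + 3)/c. If c <= 0 there is nothing to prove (take C = 1). -/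
def CHVStmt : Prop := ∀ c B : ℝ, ∃ C : ℝ, 0 < C ∧ ∀ φ φ1 φ2 : ℝ → ℝ, Cur c B φ φ1 φ2 →
  ∀ p : ℝ → ℝ, Continuous p → (∀ y, 0 ≤ p y) → (∀ y, p (y + 1) = p y) →
    ∫ x, p (φ x) ∂mu ≤ C * ∫ y in (0:ℝ)..1, p y

/-- ORT (needs -).  Parseval for trigonometric polynomials: int_0^1 |sum_{m in S} b_m e(m y)|^2 dy = sum |b_m|^2.
Proof: expand; int_0^1 e((m-m') y) dy = 0 for m <> m' (integral_exp_mul_complex), = 1 for m = m'. -/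
def ORTStmt : Prop := ∀ (S : Finset ℤ) (b : ℤ → ℂ),
  ∫ y in (0:ℝ)..1, ‖∑ m ∈ S, b m * ee (m * y)‖ ^ 2 = ∑ m ∈ S, ‖b m‖ ^ 2

/-- DUB (needs CHV, ORT).  Bessel's inequality along the curve: sum_{m in S} |int g e(m phi)|^2 <= C int |g|^2.
Proof: b_m = conj(int g e(m phi)).  T := sum_{m in S} |int g e(m phi)|^2 = int g(x) P(phi(x)) dx, P(y) = sum b_m e(m y).
Cauchy-Schwarz: T^2 <= int |g|^2 * int |P(phi)|^2 <= int |g|^2 * C int_0^1 |P|^2 = C int |g|^2 * T  (CHV with p = |P|^2,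
ORT).  Divide by T (T = 0 is clear).  phi is continuous on [-1,1], so everything is a.e. strongly measurable
and bounded; mu is a finite measure. -/
def DUBStmt : Prop := ∀ c B : ℝ, ∃ C : ℝ, 0 < C ∧ ∀ φ φ1 φ2 : ℝ → ℝ, Cur c B φ φ1 φ2 →
  ∀ g : ℝ → ℂ, AEStronglyMeasurable g mu → (∃ M : ℝ, ∀ x, ‖g x‖ ≤ M) →
    ∀ S : Finset ℤ, ∑ m ∈ S, ‖∫ x, g x * ee (m * φ x) ∂mu‖ ^ 2 ≤ C * ∫ x, ‖g x‖ ^ 2 ∂mu

/-! ### duality -/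

/-- GRM (needs -).  For |u_k| <= 1: (sum_{k<K} |int f u_k|^2)^2 <= (int |f|)^2 * int int |f(x)||f(y)||sum_k u_k(x) conj u_k(y)|^2.
Proof: |int f u_k|^2 = (int f u_k)(conj int f u_k) = int int f(x) conj f(y) u_k(x) conj u_k(y) (integral_prod_mul),
so sum_k = int int f(x) conj f(y) Ker(x,y) <= int int |f(x)||f(y)||Ker|; then Cauchy-Schwarz with
|f(x)||f(y)||Ker| = (|f(x)||f(y)|)^(1/2) ((|f(x)||f(y)|)^(1/2)|Ker|) and int int |f(x)||f(y)| = (int |f|)^2.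
(Cauchy-Schwarz may be done by hand: for all s > 0, 2 A <= s G + H/s.) -/
def GRMStmt : Prop := ∀ (K : ℕ) (u : ℕ → ℝ → ℂ) (f : ℝ → ℂ),
  (∀ k, AEStronglyMeasurable (u k) mu) → (∀ k x, ‖u k x‖ ≤ 1) →
  AEStronglyMeasurable f mu → (∃ M : ℝ, ∀ x, ‖f x‖ ≤ M) →
  (∑ k ∈ range K, ‖∫ x, f x * u k x ∂mu‖ ^ 2) ^ 2 ≤
    (∫ x, ‖f x‖ ∂mu) ^ 2 *
      ∫ p, ‖f p.1‖ * ‖f p.2‖ * ‖∑ k ∈ range K, u k p.1 * (starRingEnd ℂ) (u k p.2)‖ ^ 2 ∂(mu.prod mu)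

/-- FEI (needs -).  int int g(x) g(y) F_j(q (phi(x) - phi(y))) = 2^(-j) sum_{k,l<2^j} |int g e(q (k-l) phi)|^2.
Proof: F_j(t) = 2^(-j) sum_{k,l<2^j} e((k-l) t) (expand |D|^2), e((k-l) q (phi x - phi y)) =
e(q (k-l) phi x) conj e(q (k-l) phi y), g real; integral_prod_mul for each pair (k,l). -/
def FEIStmt : Prop := ∀ c B : ℝ, ∀ φ φ1 φ2 : ℝ → ℝ, Cur c B φ φ1 φ2 →
  ∀ g : ℝ → ℝ, AEStronglyMeasurable g mu → (∃ M : ℝ, ∀ x, |g x| ≤ M) → ∀ (j : ℕ) (q : ℤ),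
    ∫ p, g p.1 * g p.2 * Fj j (q * (φ p.1 - φ p.2)) ∂(mu.prod mu) =
      (∑ k ∈ range (2 ^ j), ∑ l ∈ range (2 ^ j),
        ‖∫ x, (g x : ℂ) * ee (((q * ((k:ℤ) - l) : ℤ) : ℝ) * φ x) ∂mu‖ ^ 2) / 2 ^ j

/-- CNT (needs -).  Counting, G >= 0 on the integers, q <> 0.
Proof: J = clog 2 K, 2^J <= 2 K (K >= 1).  Terms with h (k-l) = 0: h = 0 gives sum_{j<=J} 2^j G(0) <= 2^(J+1) G(0) <= 4 K G(0),
k = l gives <= K (J+1) G(0).  Terms with h >= 1, k <> l: for fixed h, j, u = k - l <> 0 there are at most 2^j pairs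
(k,l), so they are <= (J+1) sum_{1<=h<K} sum_{0<|u|<2^J} G(2 h q u) = (J+1) sum_m r(m) G(2 q m),
r(m) = #{(h,u) : h u = m} <= number of divisors of |m| <= C1 |m|^(eps/4) <= C1 (2 K^2)^(eps/4)
(divisor_bound of Pool/Agent/H93/BT/Divb.lean; h divides |m| and u = m/h).  S = {2 q m : 0 < |m| < K 2^J}
(m -> 2 q m injective).  J + 1 <= C2 K^(eps/2). -/
def CNTStmt : Prop := ∀ ε : ℝ, 0 < ε → ∃ C : ℝ, 0 < C ∧ ∀ K : ℕ, 1 ≤ K → ∀ q : ℤ, q ≠ 0 →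
  ∀ G : ℤ → ℝ, (∀ m, 0 ≤ G m) → ∃ S : Finset ℤ,
    ∑ h ∈ range K, ∑ j ∈ range (Nat.clog 2 K + 1),
      (∑ k ∈ range (2 ^ j), ∑ l ∈ range (2 ^ j), G (2 * h * q * ((k:ℤ) - l))) / 2 ^ j
      ≤ C * (K:ℝ) ^ ε * (K * G 0 + ∑ m ∈ S, G m)

/-- DUA (needs WEA, DUB, GRM, FEI, CNT).  The dual inequality.
Proof: GRM with u_k = uu d r phi k (bounded by 1, a.e. strongly measurable; outside [-1,1] nothing matters):
sum_k u_k(x) conj u_k(y) = sum_k e((r+dk) X + (r+dk)^2 T), X = x - y, T = phi x - phi y, so its square is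
<= 32 W_K(d^2 T) (WEA).  With g = |f|: int int g g' W_K(d^2 (phi x - phi y)) = sum_h sum_j int int g g' F_j(2 h d^2 (phi x - phi y))
= sum_h sum_j 2^(-j) sum_{k,l} G(2 h d^2 (k-l)), G(m) = |int g e(m phi)|^2 (FEI, q := 2 h d^2),
<= C1 K^eps (K G(0) + sum_{m in S} G(m)) (CNT with q = d^2) and G(0) = (int |f|)^2, sum_{m in S} G(m) <= C2 int |f|^2 (DUB). -/
def DUAStmt : Prop := ∀ c B ε : ℝ, 0 < ε → ∃ C : ℝ, 0 < C ∧ ∀ φ φ1 φ2 : ℝ → ℝ, Cur c B φ φ1 φ2 →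
  ∀ d r : ℤ, d ≠ 0 → ∀ K : ℕ, 1 ≤ K →
  ∀ f : ℝ → ℂ, AEStronglyMeasurable f mu → (∃ M : ℝ, ∀ x, ‖f x‖ ≤ M) →
    (∑ k ∈ range K, ‖∫ x, f x * uu d r φ k x ∂mu‖ ^ 2) ^ 2 ≤
      C * (K:ℝ) ^ ε * (∫ x, ‖f x‖ ∂mu) ^ 2 * (K * (∫ x, ‖f x‖ ∂mu) ^ 2 + ∫ x, ‖f x‖ ^ 2 ∂mu)

/-- AVG (needs ORT).  int_0^1 W_K(q y + b)^2 dy <= C K^(2+eps), q a nonzero integer.
Proof: F_j(2 h t) = 2^(-j) sum_{k,l<2^j} e(2 h (k-l) t), so W_K(q y + b) = sum_{m in S} b_m e(2 q m y), where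
S = {m : |m| < K 2^J}, J = clog 2 K, b_m = sum over (h,j,k,l) with h (k-l) = m of 2^(-j) e(2 m b);
|b_0| <= 2^(J+1) + K (J+1), |b_m| <= (J+1) #{(h,u) : h u = m} <= (J+1) C1 (2K^2)^(eps/8) for m <> 0 (as in CNT).
ORT (for the frequencies 2 q m): int = sum |b_m|^2 <= |b_0|^2 + 2 K 2^J (J+1)^2 C1^2 (2K^2)^(eps/4) <= C K^(2+eps) as
2^J <= 2K, J+1 <= C2 K^(eps/4). -/
def AVGStmt : Prop := ∀ ε : ℝ, 0 < ε → ∃ C : ℝ, 0 < C ∧ ∀ K : ℕ, 1 ≤ K → ∀ q : ℤ, q ≠ 0 → ∀ b : ℝ,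
  ∫ y in (0:ℝ)..1, (WW K (q * y + b)) ^ 2 ≤ C * (K:ℝ) ^ (2 + ε)

/-! ### the three parts -/

/-- PA (needs L2B, DUA).  int |F|^4 <= C K^(1/2+eps) (sum |a_k|^2)^2.
Proof: F = FA d r K a phi, A = sum |a_k|^2, I = int |F|^4, f = conj(F) |F|^2 (set f = 0 outside [-1,1]).
I = int F f = sum a_k int f u_k, so I^2 <= A sum_k |int f u_k|^2, I^4 <= A^2 (sum_k |int f u_k|^2)^2
<= A^2 C1 K^eps' (int |F|^3)^2 (K (int |F|^3)^2 + int |F|^6) (DUA with eps' = 2 eps).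
int |F|^3 <= (int |F|^2)^(1/2) (int |F|^4)^(1/2), so (int |F|^3)^2 <= C2 A I (L2B: F is FF S a' phi with
S the image of k -> r + d k, injective since d <> 0); |F|^2 <= K A, int |F|^6 <= K A I.
So I^4 <= A^2 C1 K^eps' C2 A I (K C2 A I + K A I) = C3 K^(1+eps') A^4 I^2; so I^2 <= C3 K^(1+eps') A^4. -/
def PAStmt : Prop := ∀ c B ε : ℝ, 0 < ε → ∃ C : ℝ, 0 < C ∧ ∀ φ φ1 φ2 : ℝ → ℝ, Cur c B φ φ1 φ2 →
  ∀ d r : ℤ, d ≠ 0 → ∀ K : ℕ, 1 ≤ K → ∀ a : ℕ → ℂ,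
    ∫ x, ‖FA d r K a φ x‖ ^ 4 ∂mu ≤ C * (K:ℝ) ^ (1 / 2 + ε) * (∑ k ∈ range K, ‖a k‖ ^ 2) ^ 2

/-- PB (needs DUA).  Large values.
Proof: C1 from DUA, C = 2 C1 + 1.  E = {x in [-1,1] : lam <= |F x|} (closed), f = conj(F) 1_E, I = int_E |F|^2 = int F f
= sum a_k int f u_k.  I^4 <= A^2 C1 K^eps (int_E |F|)^2 (K (int_E |F|)^2 + I), int_E |F| <= I/lam.  So
I^4 <= C1 K^eps A^2 (I^2/lam^2) (K I^2/lam^2 + I).  If I = 0 then mu E = 0 (lam^2 mu E <= I).  Else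
I^2 <= C1 K^(1+eps) A^2 I^2/lam^4 + C1 K^eps A^2 I/lam^2 and the first term is <= I^2/2 by hypothesis
(2 C1 K^(1+eps) A^2 <= lam^4), so I <= 2 C1 K^eps A^2/lam^2 and lam^4 mu E <= lam^2 I <= 2 C1 K^eps A^2. -/
def PBStmt : Prop := ∀ c B ε : ℝ, 0 < ε → ∃ C : ℝ, 0 < C ∧ ∀ φ φ1 φ2 : ℝ → ℝ, Cur c B φ φ1 φ2 →
  ∀ d r : ℤ, d ≠ 0 → ∀ K : ℕ, 1 ≤ K → ∀ a : ℕ → ℂ, ∀ lam : ℝ, 0 < lam →
    C * (K:ℝ) ^ (1 + ε) * (∑ k ∈ range K, ‖a k‖ ^ 2) ^ 2 ≤ lam ^ 4 →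
    lam ^ 4 * (mu {x | lam ≤ ‖FA d r K a φ x‖}).toReal ≤
      C * (K:ℝ) ^ ε * (∑ k ∈ range K, ‖a k‖ ^ 2) ^ 2

/-- PC (needs WEY, CHV, AVG).  a_k = w_k e(al k + be k^2), w of bounded variation.
Proof: a_k u_k(x) = w_k e(r x + r^2 phi) e(k z + k^2 t), z = al + d x + 2 r d phi(x), t = be + d^2 phi(x).
S_L = sum_{k<L} e(k z + k^2 t): |S_L|^2 <= 32 W_K(t) for L <= K (WEY).  Abel summation: |sum_{k<K} w_k v_k| <=
|w_{K-1}||S_K| + sum_{k<K-1} |w_{k+1}-w_k||S_{k+1}| <= 2 V max |S_L|, V = |w_0| + sum_{k<K-1} |w_{k+1}-w_k|.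
So |F|^4 <= 16 V^4 * 32^2 W_K(d^2 phi(x) + be)^2, and int W_K(d^2 phi(x) + be)^2 dx <= C1 int_0^1 W_K(d^2 y + be)^2 dy
(CHV, p(y) = W_K(d^2 y + be)^2 is continuous and 1-periodic) <= C1 C2 K^(2+eps) (AVG, q = d^2). -/
def PCStmt : Prop := ∀ c B ε : ℝ, 0 < ε → ∃ C : ℝ, 0 < C ∧ ∀ φ φ1 φ2 : ℝ → ℝ, Cur c B φ φ1 φ2 →
  ∀ d r : ℤ, d ≠ 0 → ∀ K : ℕ, 1 ≤ K → ∀ (w : ℕ → ℂ) (al be : ℝ),
    ∫ x, ‖FA d r K (fun k => w k * ee (al * k + be * (k:ℝ) ^ 2)) φ x‖ ^ 4 ∂mu ≤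
      C * (K:ℝ) ^ (2 + ε) * (‖w 0‖ + ∑ k ∈ range (K - 1), ‖w (k + 1) - w k‖) ^ 4

end Pool.QN
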