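import Pool.Agent.H12.QN.Stmts

/-! Board `qnb`, second part: the local L^2 bound (for the joint theorem with helper79). -/

namespace Pool.QN

open Finset MeasureTheory

/-- VDJ (needs -).  Row VDC on a subinterval [al, be] of [-1,1]: the same proof, the same constant
(only |theta'| >= |h||s|c/2, |phi''| <= B and be - al <= 2 are used). -/
def VDJStmt : Prop := ∀ c B : ℝ, ∃ C : ℝ, 0 < C ∧ ∀ φ φ1 φ2 : ℝ → ℝ, Cur c B φ φ1 φ2 →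
  ∀ al be : ℝ, -1 ≤ al → al ≤ be → be ≤ 1 → ∀ h s : ℤ, h ≠ 0 → 2 / c ≤ |(s:ℝ)| →
    ‖∫ x in al..be, ee (h * (x + s * φ x))‖ ≤ C / (|(h:ℝ)| * |(s:ℝ)|)

/-- LOC (needs VDJ).  Local L^2 bound for frequencies M <= |n| <= N:
int_J |F|^2 <= C (|J| + (1 + log N)/M) sum |a_n|^2.
Proof: as in row L2B, |int_J e((n-m) x + (n^2-m^2) phi)| <= k(n,m), h = n - m, s = n + m, where
k(n,m) = |J| if h = 0 or |s| < 2/c, and else k(n,m) = C1/(|h||s|) (VDJ).  k is symmetric; Schur: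
int_J |F|^2 <= sum_n |a_n|^2 sum_m k(n,m).  For fixed n: the m with h = 0 or |s| < 2/c give <= (1 + 4/c + 1) |J|.
For the others s <> 0 (as 2/c > 0) and h <> 0; h + s = 2 n, so max(|h|,|s|) >= |n| >= M and with t = min(|h|,|s|) >= 1:
k <= C1/(M t) <= (C1/M) (1/|h| + 1/|s|), 1 <= |h|, |s| <= 2 N.  Each value of h (of s) is attained once, so the sum is
<= (C1/M) * 2 * (2 sum_{1<=t<=2N} 1/t) <= (C1/M) * 4 * (1 + log(2N)) <= 8 C1 (1 + log N)/M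
(harmonic_le_one_add_log; N >= 1 if S is nonempty; log 2 <= 1). -/
def LOCStmt : Prop := ∀ c B : ℝ, ∃ C : ℝ, 0 < C ∧ ∀ φ φ1 φ2 : ℝ → ℝ, Cur c B φ φ1 φ2 →
  ∀ al be : ℝ, -1 ≤ al → al ≤ be → be ≤ 1 → ∀ M N : ℕ, 1 ≤ M → M ≤ N →
  ∀ S : Finset ℤ, (∀ n ∈ S, (M:ℤ) ≤ |n| ∧ |n| ≤ (N:ℤ)) → ∀ a : ℤ → ℂ,
    ∫ x in al..be, ‖FF S a φ x‖ ^ 2 ≤ C * ((be - al) + (1 + Real.log N) / M) * ∑ n ∈ S, ‖a n‖ ^ 2

end Pool.QN
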